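import Pool.Agent.Lib.helper80.Comp

/-! Typed polynomial-time functions.  `PT f` says that `f` is computed in polynomial time on the
internal codes `enc` (natural numbers are unary).  Closure lemmas are tagged for `fun_prop`.
`PT.toTM2` exports to `Turing.TM2ComputableInPolyTime` for arbitrary external codes. -/

namespace Pool.Agent.Lib.helper80

open Function Polynomial Turing

class Enc (α : Type) where
  enc : α → List Bool

export Enc (enc)

def encList {α : Type} (e : α → List Bool) : List α → List Bool
  | [] => []
  | a :: l => delim (e a) ++ encList e l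

instance encBool : Enc Bool := ⟨fun b => [b]⟩
instance encNat : Enc ℕ := ⟨fun n => List.replicate n true⟩
instance encUnit : Enc Unit := ⟨fun _ => []⟩
instance encProd {α β : Type} [Enc α] [Enc β] : Enc (α × β) :=
  ⟨fun p => delim (enc p.1) ++ enc p.2⟩
instance encListI {α : Type} [Enc α] : Enc (List α) := ⟨encList enc⟩

section
variable {α β γ δ : Type} [Enc α] [Enc β] [Enc γ] [Enc δ]

theorem enc_bool (b : Bool) : enc b = [b] := rfl
theorem enc_nat (n : ℕ) : enc n = List.replicate n true := rfl
theorem enc_pair (a : α) (b : β) : enc (a, b) = delim (enc a) ++ enc b := rfl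
theorem enc_nil : enc ([] : List α) = [] := rfl
theorem enc_cons (a : α) (l : List α) : enc (a :: l) = delim (enc a) ++ enc l := rfl
theorem enc_append (l l' : List α) : enc (l ++ l') = enc l ++ enc l' := by
  induction l with
  | nil => rfl
  | cons a l ih => simp [enc_cons, ih]

/-- Length of the code. -/
def sz (a : α) : ℕ := (enc a).length

@[simp] theorem sz_bool (b : Bool) : sz b = 1 := rfl
@[simp] theorem sz_nat (n : ℕ) : sz n = n := by simp [sz, enc_nat]
@[simp] theorem sz_pair (a : α) (b : β) : sz (a, b) = 2 * sz a + 1 + sz b := by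
  simp [sz, enc_pair]
@[simp] theorem sz_nil : sz ([] : List α) = 0 := rfl
@[simp] theorem sz_cons (a : α) (l : List α) : sz (a :: l) = 2 * sz a + 1 + sz l := by
  simp [sz, enc_cons]
@[simp] theorem sz_append (l l' : List α) : sz (l ++ l') = sz l + sz l' := by
  simp [sz, enc_append]

theorem length_le_sz (l : List α) : l.length ≤ sz l := by
  induction l with
  | nil => simp
  | cons a l ih => simp; omega

theorem sz_le_of_mem {a : α} {l : List α} (h : a ∈ l) : sz a ≤ sz l := by
  induction l with
  | nil => simp at h
  | cons b l ih =>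
    rcases List.mem_cons.1 h with rfl | h
    · simp; omega
    · have := ih h; simp; omega

theorem sz_drop_le (n : ℕ) (l : List α) : sz (l.drop n) ≤ sz l := by
  conv_rhs => rw [← List.take_append_drop n l, sz_append]
  omega

theorem sz_take_le (n : ℕ) (l : List α) : sz (l.take n) ≤ sz l := by
  conv_rhs => rw [← List.take_append_drop n l, sz_append]
  omega

theorem sz_le_of_forall {l : List α} {m : ℕ} (h : ∀ a ∈ l, sz a ≤ m) :
    sz l ≤ l.length * (2 * m + 1) := by
  induction l with
  | nil => simp
  | cons a l ih =>
    have h1 := h a (by simp)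
    have h2 := ih fun b hb => h b (by simp [hb])
    simp only [sz_cons, List.length_cons]; nlinarith

@[fun_prop]
def PT (f : α → β) : Prop := Comp (fun a => enc a) (fun a => enc (f a))

/-- Case analysis on a list. -/
def lcases {β γ : Type} (l : List β) (g : γ) (h : β → List β → γ) : γ :=
  match l with
  | [] => g
  | b :: t => h b t

@[simp] theorem lcases_nil {β γ : Type} (g : γ) (h : β → List β → γ) : lcases [] g h = g := rfl
@[simp] theorem lcases_cons {β γ : Type} (b : β) (t : List β) (g : γ) (h : β → List β → γ) :
    lcases (b :: t) g h = h b t := rfl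

namespace PT

theorem sz_le {f : α → β} (h : PT f) : ∃ p : ℕ[X], ∀ a, sz (f a) ≤ p.eval (sz a) :=
  Comp.length_le h

theorem congr {f g : α → β} (h : PT f) (e : ∀ a, f a = g a) : PT g := by
  rw [← funext e]; exact h

@[fun_prop] theorem id' : PT (fun a : α => a) := Comp.refl _

@[fun_prop] theorem const (b : β) : PT (fun _ : α => b) := Comp.const _ _

@[fun_prop] theorem comp {f : β → γ} {g : α → β} (hf : PT f) (hg : PT g) :
    PT (fun a => f (g a)) := Comp.trans hg (Comp.reindex hf g)

@[fun_prop] theorem prodMk {f : α → β} {g : α → γ} (hf : PT f) (hg : PT g) :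
    PT (fun a => (f a, g a)) := Comp.pair hf hg

@[fun_prop] theorem fst {f : α → β × γ} (hf : PT f) : PT (fun a => (f a).1) :=
  Comp.trans hf (Comp.fst (fun a => enc (f a).1) (fun a => enc (f a).2))

@[fun_prop] theorem snd {f : α → β × γ} (hf : PT f) : PT (fun a => (f a).2) :=
  Comp.trans hf (Comp.snd (fun a => enc (f a).1) (fun a => enc (f a).2))

@[fun_prop] theorem cond {b : α → Bool} {f g : α → β} (hb : PT b) (hf : PT f) (hg : PT g) :
    PT (fun a => bif b a then f a else g a) :=
  (Comp.cond' (y := fun a => enc (f a)) (z := fun a => enc (g a)) hb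
    (Comp.reindex hf Subtype.val) (Comp.reindex hg Subtype.val)).congr fun a => by
    beta_reduce
    cases b a <;> rfl

@[fun_prop] theorem not {b : α → Bool} (hb : PT b) : PT (fun a => !b a) :=
  (cond hb (const false) (const true)).congr fun a => by cases b a <;> rfl

@[fun_prop] theorem and {b c : α → Bool} (hb : PT b) (hc : PT c) : PT (fun a => b a && c a) :=
  (cond hb hc (const false)).congr fun a => by cases b a <;> rfl

@[fun_prop] theorem or {b c : α → Bool} (hb : PT b) (hc : PT c) : PT (fun a => b a || c a) :=
  (cond hb (const true) hc).congr fun a => by cases b a <;> rfl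

@[fun_prop] theorem sz' {f : α → β} (hf : PT f) : PT (fun a => sz (f a)) :=
  Comp.trans hf (Comp.size _)

@[fun_prop] theorem cons {f : α → β} {l : α → List β} (hf : PT f) (hl : PT l) :
    PT (fun a => f a :: l a) := Comp.pair hf hl

@[fun_prop] theorem append {l l' : α → List β} (hl : PT l) (hl' : PT l') :
    PT (fun a => l a ++ l' a) :=
  (Comp.trans (Comp.pair hl hl') (Comp.app _ _)).congr fun _ => (enc_append _ _).symm

@[fun_prop] theorem isEmpty {l : α → List β} (hl : PT l) : PT (fun a => (l a).isEmpty) :=
  (Comp.trans hl (Comp.headTest _ Option.isNone)).congr fun a => by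
    beta_reduce
    cases l a with
    | nil => rfl
    | cons b t => rw [enc_cons]; cases enc b <;> rfl

@[fun_prop] theorem lcases {l : α → List β} {g : α → γ} {h : α → β → List β → γ} (hl : PT l)
    (hg : PT g) (hh : PT fun p : α × β × List β => h p.1 p.2.1 p.2.2) :
    PT (fun a => lcases (l a) (g a) (h a)) := by
  have key : ∀ a : {a // (l a).isEmpty = false}, l a ≠ [] := fun a h => by
    have := a.2; simp [h] at this
  let φ : {a // (l a).isEmpty = false} → α × β × List β :=
    fun a => (a.1, (l a).head (key a), (l a).tail)
  have h2 : Comp (fun a : {a // (l a).isEmpty = false} => enc a.1)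
      (fun a => enc (helper80.lcases (l a) (g a) (h a))) := by
    refine Comp.trans (Comp.pair (Comp.refl _) (Comp.reindex hl Subtype.val))
      (Comp.of_eq hh φ (fun a => ?_) (fun a => ?_))
    · simp only [φ, enc_pair]
      rw [← enc_cons, List.cons_head_tail]
    · simp only [φ]
      conv_lhs => rw [← List.cons_head_tail (key a)]
      rfl
  refine (Comp.cond' (y := fun a => enc (g a))
    (z := fun a => enc (helper80.lcases (l a) (g a) (h a))) (isEmpty hl)
    (Comp.reindex hg Subtype.val) h2).congr fun a => ?_
  beta_reduce
  cases l a <;> rfl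

@[fun_prop] theorem tail {l : α → List β} (hl : PT l) : PT (fun a => (l a).tail) :=
  (lcases (h := fun _ _ t => t) hl (const []) (by fun_prop)).congr fun a => by cases l a <;> rfl

@[fun_prop] theorem headD {l : α → List β} {d : α → β} (hl : PT l) (hd : PT d) :
    PT (fun a => (l a).headD (d a)) :=
  (lcases (h := fun _ b _ => b) hl hd (by fun_prop)).congr fun a => by cases l a <;> rfl

theorem iterate {step : β → β} (hstep : PT step) {n : α → ℕ} (hn : PT n) {s : α → β} (hs : PT s)
    (q : ℕ[X]) (hq : ∀ a i, i ≤ n a → sz (step^[i] (s a)) ≤ q.eval (sz a)) :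
    PT (fun a => step^[n a] (s a)) :=
  Comp.iterate (e := fun b => enc b) hstep (Comp.pair hn hs) q hq

theorem foldl {f : α → γ → β → γ} (hf : PT fun p : α × γ × β => f p.1 p.2.1 p.2.2)
    {l : α → List β} (hl : PT l) {i : α → γ} (hi : PT i) (q : ℕ[X])
    (hq : ∀ a n, sz (((l a).take n).foldl (f a) (i a)) ≤ q.eval (sz a)) :
    PT fun a => (l a).foldl (f a) (i a) := by
  obtain ⟨r, hr⟩ := hl.sz_le
  let step : α × List β × γ → α × List β × γ :=
    fun s => (s.1, s.2.1.tail, helper80.lcases s.2.1 s.2.2 (fun b _ => f s.1 s.2.2 b))
  have hstep : PT step := by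
    refine prodMk (by fun_prop) (prodMk (by fun_prop) (lcases (by fun_prop) (by fun_prop) ?_))
    exact comp (g := fun p : (α × List β × γ) × β × List β => (p.1.1, p.1.2.2, p.2.1)) hf
      (by fun_prop)
  have key : ∀ a n, step^[n] (a, l a, i a) =
      (a, (l a).drop n, ((l a).take n).foldl (f a) (i a)) := by
    intro a n
    induction n with
    | zero => simp
    | succ n ih =>
      rw [iterate_succ_apply', ih]
      simp only [step, List.tail_drop, Prod.mk.injEq, true_and]
      rw [List.take_add_one, List.foldl_append, ← List.head?_drop]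
      cases (l a).drop n <;> simp
  have h := iterate hstep (sz' hl) (s := fun a => (a, l a, i a)) (by fun_prop)
    (2 * X + 1 + (2 * r + 1 + q)) (fun a n _ => by
      rw [key]
      have := sz_drop_le n (l a)
      have := hr a
      have := hq a n
      simp; omega)
  refine (snd (snd h)).congr fun a => ?_
  rw [key, List.take_of_length_le (length_le_sz _)]

@[fun_prop] theorem flatMap {f : α → β → List γ} {l : α → List β}
    (hf : PT fun p : α × β => f p.1 p.2) (hl : PT l) : PT fun a => (l a).flatMap (f a) := by
  obtain ⟨r, hr⟩ := hl.sz_le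
  obtain ⟨p, hp⟩ := hf.sz_le
  have e : ∀ a (l : List β) (acc : List γ),
      l.foldl (fun acc b => acc ++ f a b) acc = acc ++ l.flatMap (f a) := by
    intro a l
    induction l with
    | nil => simp
    | cons b l ih => intro acc; simp [ih]
  have h := foldl (f := fun a (acc : List γ) b => acc ++ f a b)
    (append (by fun_prop) (comp (g := fun p : α × List γ × β => (p.1, p.2.2)) hf (by fun_prop)))
    hl (const []) (r * p.comp (2 * X + 1 + r)) (fun a n => by
      rw [e, List.nil_append]
      have h1 : ∀ l' : List β, (∀ b ∈ l', b ∈ l a) → sz (l'.flatMap (f a)) ≤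
          l'.length * p.eval (2 * sz a + 1 + r.eval (sz a)) := by
        intro l'
        induction l' with
        | nil => simp
        | cons b t ih =>
          intro h
          have h1 := ih fun c hc => h c (by simp [hc])
          have h2 := hp (a, b)
          have h3 := (sz_le_of_mem (h b (by simp))).trans (hr a)
          have h4 := eval_mono p (show sz (a, b) ≤ 2 * sz a + 1 + r.eval (sz a) by simp; omega)
          simp only [List.flatMap_cons, sz_append, List.length_cons]
          nlinarith
      refine (h1 _ fun b hb => List.mem_of_mem_take hb).trans ?_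
      have h2 : ((l a).take n).length ≤ r.eval (sz a) :=
        (List.length_take_le' _ _).trans ((length_le_sz _).trans (hr a))
      simp only [eval_mul, eval_comp, eval_add, eval_X, eval_ofNat, eval_one]
      gcongr)
  exact h.congr fun a => by rw [e, List.nil_append]

@[fun_prop] theorem map {f : α → β → γ} {l : α → List β}
    (hf : PT fun p : α × β => f p.1 p.2) (hl : PT l) : PT fun a => (l a).map (f a) :=
  (flatMap (f := fun a b => [f a b]) (cons hf (const [])) hl).congr fun a => by
    induction l a with
    | nil => rfl
    | cons b t ih => simp [ih]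

@[fun_prop] theorem filter {f : α → β → Bool} {l : α → List β}
    (hf : PT fun p : α × β => f p.1 p.2) (hl : PT l) : PT fun a => (l a).filter (f a) :=
  (flatMap (f := fun a b => bif f a b then [b] else [])
    (cond hf (by fun_prop) (const [])) hl).congr fun a => by
    induction l a with
    | nil => rfl
    | cons b t ih => cases h : f a b <;> simp [ih, h]

@[fun_prop] theorem any {f : α → β → Bool} {l : α → List β}
    (hf : PT fun p : α × β => f p.1 p.2) (hl : PT l) : PT fun a => (l a).any (f a) :=
  (not (isEmpty (filter hf hl))).congr fun a => by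
    induction l a with
    | nil => rfl
    | cons b t ih => cases h : f a b <;> simp_all

@[fun_prop] theorem all {f : α → β → Bool} {l : α → List β}
    (hf : PT fun p : α × β => f p.1 p.2) (hl : PT l) : PT fun a => (l a).all (f a) :=
  (not (any (f := fun a b => !f a b) (not hf) hl)).congr fun a => by
    induction l a with
    | nil => rfl
    | cons b t ih => cases h : f a b <;> simp_all

/-! ### Unary arithmetic -/

@[fun_prop] theorem add {m n : α → ℕ} (hm : PT m) (hn : PT n) : PT (fun a => m a + n a) :=
  (Comp.trans (Comp.pair hm hn) (Comp.app _ _)).congr fun _ => by simp [enc_nat]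

@[fun_prop] theorem pred {m : α → ℕ} (hm : PT m) : PT (fun a => (m a).pred) :=
  (Comp.trans hm (Comp.tail _)).congr fun _ => by simp [enc_nat]

theorem isZero {m : α → ℕ} (hm : PT m) : PT (fun a => Nat.beq (m a) 0) :=
  (Comp.trans hm (Comp.headTest _ Option.isNone)).congr fun a => by
    beta_reduce
    cases m a <;> rfl

@[fun_prop] theorem sub {m n : α → ℕ} (hm : PT m) (hn : PT n) : PT (fun a => m a - n a) := by
  obtain ⟨r, hr⟩ := hm.sz_le
  have e : ∀ i k : ℕ, Nat.pred^[i] k = k - i := fun i k => Nat.pred_iterate k i
  refine (iterate (step := Nat.pred) (pred id') hn hm r fun a i _ => ?_).congr fun a => e _ _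
  have := hr a
  rw [e]; simp at this ⊢; omega

@[fun_prop] theorem ble {m n : α → ℕ} (hm : PT m) (hn : PT n) :
    PT (fun a => Nat.ble (m a) (n a)) :=
  (isZero (sub hm hn)).congr fun a => by
    rw [Bool.eq_iff_iff]; simp [Nat.sub_eq_zero_iff_le]

@[fun_prop] theorem blt {m n : α → ℕ} (hm : PT m) (hn : PT n) :
    PT (fun a => Nat.blt (m a) (n a)) :=
  (not (ble hn hm)).congr fun a => by
    rw [Bool.eq_iff_iff]; simp [← Bool.not_eq_true]

@[fun_prop] theorem beq {m n : α → ℕ} (hm : PT m) (hn : PT n) :
    PT (fun a => Nat.beq (m a) (n a)) :=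
  (and (ble hm hn) (ble hn hm)).congr fun a => by
    rw [Bool.eq_iff_iff]; simp [Nat.le_antisymm_iff]

@[fun_prop] theorem length {l : α → List β} (hl : PT l) : PT (fun a => (l a).length) := by
  obtain ⟨r, hr⟩ := hl.sz_le
  have e : ∀ (l : List β) (k : ℕ), l.foldl (fun acc _ => acc + 1) k = k + l.length := by
    intro l
    induction l with
    | nil => simp
    | cons b l ih => intro k; simp [ih]; omega
  refine (foldl (f := fun _ (acc : ℕ) (_ : β) => acc + 1) (by fun_prop) hl (const 0) r
    fun a n => ?_).congr fun a => by rw [e]; simp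
  rw [e]
  simpa using Or.inr ((length_le_sz _).trans (hr a))

@[fun_prop] theorem range {n : α → ℕ} (hn : PT n) : PT (fun a => List.range (n a)) := by
  obtain ⟨r, hr⟩ := hn.sz_le
  let step : ℕ × List ℕ → ℕ × List ℕ := fun s => (s.1 + 1, s.2 ++ [s.1])
  have e : ∀ i, step^[i] (0, []) = (i, List.range i) := by
    intro i
    induction i with
    | zero => rfl
    | succ i ih => rw [iterate_succ_apply', ih]; simp [step, List.range_succ]
  refine (snd (iterate (step := step) (by fun_prop) hn (const (0, []))
    (2 * r + 1 + r * (2 * r + 1)) fun a i hi => ?_)).congr fun a => by rw [e]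
  have h1 : i ≤ r.eval (sz a) := hi.trans (by simpa using hr a)
  have h2 := sz_le_of_forall (l := List.range i) (m := r.eval (sz a))
    (fun j hj => by simp at hj ⊢; omega)
  rw [e]
  simp only [sz_pair, sz_nat, List.length_range, eval_add, eval_mul, eval_ofNat, eval_one] at h2 ⊢
  nlinarith

@[fun_prop] theorem replicate {n : α → ℕ} {f : α → β} (hn : PT n) (hf : PT f) :
    PT (fun a => List.replicate (n a) (f a)) :=
  (map (f := fun a (_ : ℕ) => f a) (comp hf (fst id')) (range hn)).congr fun a => by simp

@[fun_prop] theorem mul {m n : α → ℕ} (hm : PT m) (hn : PT n) : PT (fun a => m a * n a) :=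
  (length (flatMap (f := fun a (_ : ℕ) => List.range (n a)) (range (comp hn (fst id')))
    (range hm))).congr fun a => by simp

@[fun_prop] theorem drop {n : α → ℕ} {l : α → List β} (hn : PT n) (hl : PT l) :
    PT (fun a => (l a).drop (n a)) := by
  obtain ⟨r, hr⟩ := hl.sz_le
  have e : ∀ (i : ℕ) (l : List β), List.tail^[i] l = l.drop i := by
    intro i
    induction i with
    | zero => simp
    | succ i ih => intro l; rw [iterate_succ_apply', ih, List.tail_drop]
  refine (iterate (step := List.tail) (tail id') hn hl r fun a i _ => ?_).congr fun a => e _ _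
  rw [e]; exact (sz_drop_le _ _).trans (hr a)

@[fun_prop] theorem getD {l : α → List β} {n : α → ℕ} {d : α → β} (hl : PT l) (hn : PT n)
    (hd : PT d) : PT (fun a => (l a).getD (n a) (d a)) :=
  (headD (drop hn hl) hd).congr fun a => by
    rw [List.headD_eq_head?_getD, List.head?_drop, List.getD_eq_getElem?_getD]

@[fun_prop] theorem reverse {l : α → List β} (hl : PT l) : PT (fun a => (l a).reverse) := by
  obtain ⟨r, hr⟩ := hl.sz_le
  have e : ∀ (l acc : List β), l.foldl (fun acc b => b :: acc) acc = l.reverse ++ acc := by
    intro l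
    induction l with
    | nil => simp
    | cons b l ih => intro k; simp
  have e2 : ∀ l : List β, sz l.reverse = sz l := by
    intro l
    induction l with
    | nil => simp
    | cons b l ih => simp [ih]; omega
  refine (foldl (f := fun _ (acc : List β) (b : β) => b :: acc) (by fun_prop) hl (const []) r
    fun a n => ?_).congr fun a => by rw [e]; simp
  rw [e, List.append_nil, e2]
  exact (sz_take_le _ _).trans (hr a)

end PT

end

/-- Number of leading `true` bits. -/
def lead : List Bool → ℕ
  | true :: l => lead l + 1
  | _ => 0

theorem lead_replicate (n : ℕ) (l : List Bool) : lead (List.replicate n true ++ false :: l) = n := by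
  induction n with
  | zero => rfl
  | succ n ih => simp [List.replicate_succ, lead, ih]

@[fun_prop] theorem PT.lead {α : Type} [Enc α] {l : α → List Bool} (hl : PT l) :
    PT (fun a => lead (l a)) := by
  obtain ⟨r, hr⟩ := hl.sz_le
  let f : ℕ × Bool → Bool → ℕ × Bool := fun s b => bif s.2 && b then (s.1 + 1, true) else (s.1, false)
  have e0 : ∀ (l : List Bool) (k : ℕ), (l.foldl f (k, false)).1 = k := by
    intro l
    induction l with
    | nil => simp
    | cons b l ih => intro k; simp [f, ih]
  have e : ∀ (l : List Bool) (k : ℕ), (l.foldl f (k, true)).1 = k + helper80.lead l := by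
    intro l
    induction l with
    | nil => simp [helper80.lead]
    | cons b l ih =>
      intro k
      cases b
      · simp [f, e0, helper80.lead]
      · simp [f, ih, helper80.lead]; omega
  have e2 : ∀ l : List Bool, helper80.lead l ≤ l.length := by
    intro l
    induction l with
    | nil => simp [helper80.lead]
    | cons b l ih => cases b <;> simp [helper80.lead, ih]
  refine (PT.fst (PT.foldl (f := fun _ s b => f s b) (by fun_prop) hl (PT.const (0, true))
    (2 * r + 2) fun a n => ?_)).congr fun a => by rw [e]; simp
  have h1 := e ((l a).take n) 0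
  have h2 := (e2 ((l a).take n)).trans ((length_le_sz _).trans ((sz_take_le n _).trans (hr a)))
  generalize List.foldl f (0, true) ((l a).take n) = s at h1 ⊢
  obtain ⟨s1, s2⟩ := s
  simp at h1 ⊢; omega

theorem Comp.unpack : Comp (fun l : List Bool => l) (fun l => enc l) :=
  (Comp.flatMapBits _ (fun b => [true, b, false])).congr fun l => by
    induction l with
    | nil => rfl
    | cons b l ih => simp [enc_cons, enc_bool, delim, ih]

structure Raw where
  bits : List Bool

instance encRaw : Enc Raw := ⟨Raw.bits⟩

theorem Comp.pack : Comp (fun l : List Bool => enc l) (fun l => l) := by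
  have e : ∀ (l : List Bool) (acc : Raw),
      l.foldl (fun acc b => (⟨acc.bits ++ [b]⟩ : Raw)) acc = ⟨acc.bits ++ l⟩ := by
    intro l
    induction l with
    | nil => simp
    | cons b l ih => intro k; simp [ih]
  have h0 : PT (fun p : Raw × Bool => (⟨p.1.bits ++ [p.2]⟩ : Raw)) :=
    Comp.app (fun p : Raw × Bool => p.1.bits) (fun p => [p.2])
  have h := PT.foldl (f := fun (_ : List Bool) (acc : Raw) (b : Bool) => (⟨acc.bits ++ [b]⟩ : Raw))
    (PT.comp (g := fun p : List Bool × Raw × Bool => p.2) h0 (by fun_prop)) PT.id'
    (PT.const ⟨[]⟩) X (fun a n => by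
      rw [e]
      show ([] ++ a.take n).length ≤ _
      simpa using Or.inr (length_le_sz a))
  exact Comp.congr h fun l => by beta_reduce; rw [e]; rfl

/-- Export: a polynomial-time map `F` on bit lists that turns external codes into external codes
gives a machine in the sense of Mathlib. -/
theorem PT.toTM2 {α β : Type} {F : List Bool → List Bool} (hF : PT F) (ea : α → List Bool)
    (eb : β → List Bool) (f : α → β) (h : ∀ a, F (ea a) = eb (f a)) :
    Nonempty (TM2ComputableInPolyTime ea eb f) :=
  Comp.toTM2 (((Comp.unpack.trans hF).trans (Comp.pack.reindex F)).of_eq ea (fun _ => rfl)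
    (fun a => (h a).symm))

end Pool.Agent.Lib.helper80
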