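import Mathlib.Computability.TuringMachine.Computable
import Mathlib.Tactic

/-! A small structured language over Boolean stacks, its cost semantics, and its compilation
into the multi-stack machines `Turing.FinTM2` of Mathlib. -/

namespace Pool.Agent.Lib.helper80

open Turing Function

inductive Cmd (K : Type) : Type
  | skip : Cmd K
  | push : K → Bool → Cmd K
  | pop : K → Cmd K
  | seq : Cmd K → Cmd K → Cmd K
  | ite : K → (Option Bool → Bool) → Cmd K → Cmd K → Cmd K
  | loop : K → (Option Bool → Bool) → Cmd K → Cmd K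

abbrev Store (K : Type) := K → List Bool

inductive Exec {K : Type} [DecidableEq K] : Cmd K → Store K → Store K → ℕ → Prop
  | skip (S : Store K) : Exec .skip S S 0
  | push (k : K) (b : Bool) (S : Store K) : Exec (.push k b) S (update S k (b :: S k)) 1
  | pop (k : K) (S : Store K) : Exec (.pop k) S (update S k (S k).tail) 1
  | seq {c d : Cmd K} {S S' S'' : Store K} {t u : ℕ} :
      Exec c S S' t → Exec d S' S'' u → Exec (.seq c d) S S'' (t + u)
  | iteT {k : K} {p : Option Bool → Bool} {c d : Cmd K} {S S' : Store K} {t : ℕ} :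
      p (S k).head? = true → Exec c S S' t → Exec (.ite k p c d) S S' t
  | iteF {k : K} {p : Option Bool → Bool} {c d : Cmd K} {S S' : Store K} {t : ℕ} :
      p (S k).head? = false → Exec d S S' t → Exec (.ite k p c d) S S' t
  | loopF {k : K} {p : Option Bool → Bool} {c : Cmd K} {S : Store K} :
      p (S k).head? = false → Exec (.loop k p c) S S 1
  | loopT {k : K} {p : Option Bool → Bool} {c : Cmd K} {S S' S'' : Store K} {t u : ℕ} :
      p (S k).head? = true → Exec c S S' t → Exec (.loop k p c) S' S'' u →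
      Exec (.loop k p c) S S'' (t + u + 1)
  | mono {c : Cmd K} {S S' : Store K} {t u : ℕ} : Exec c S S' t → t ≤ u → Exec c S S' u

section basic

variable {K K' : Type} [DecidableEq K] [DecidableEq K']

theorem Exec.length_le {c : Cmd K} {S S' : Store K} {t : ℕ} (h : Exec c S S' t) (k : K) :
    (S' k).length ≤ (S k).length + t := by
  induction h with
  | skip S => simp
  | push k' b S =>
    by_cases hk : k = k'
    · subst hk; simp
    · simp [update_of_ne hk]
  | pop k' S =>
    by_cases hk : k = k'
    · subst hk; simp; omega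
    · simp [update_of_ne hk]
  | seq _ _ ih1 ih2 => omega
  | iteT _ _ ih => exact ih
  | iteF _ _ ih => exact ih
  | loopF _ => omega
  | loopT _ _ _ ih1 ih2 => omega
  | mono _ h ih => omega

theorem Exec.cast {c : Cmd K} {S S' T T' : Store K} {t u : ℕ} (h : Exec c S S' t)
    (h1 : S = T) (h2 : S' = T') (h3 : t ≤ u) : Exec c T T' u := by
  subst h1 h2; exact h.mono h3

def Cmd.map (ρ : K → K') : Cmd K → Cmd K'
  | .skip => .skip
  | .push k b => .push (ρ k) b
  | .pop k => .pop (ρ k)
  | .seq c d => .seq (c.map ρ) (d.map ρ)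
  | .ite k p c d => .ite (ρ k) p (c.map ρ) (d.map ρ)
  | .loop k p c => .loop (ρ k) p (c.map ρ)

theorem Exec.map {ρ : K → K'} (hρ : Injective ρ) {c : Cmd K} {S S' : Store K} {t : ℕ}
    (h : Exec c S S' t) : ∀ T : Store K', (∀ k, T (ρ k) = S k) →
      ∃ T' : Store K', Exec (c.map ρ) T T' t ∧ (∀ k, T' (ρ k) = S' k) ∧
        ∀ k', (∀ k, ρ k ≠ k') → T' k' = T k' := by
  induction h with
  | skip S => exact fun T hT => ⟨T, .skip T, hT, fun _ _ => rfl⟩
  | push k b S =>
    intro T hT
    refine ⟨_, .push (ρ k) b T, fun j => ?_, fun k' hk' => update_of_ne (hk' k).symm _ _⟩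
    by_cases hj : j = k
    · subst hj; simp [hT]
    · rw [update_of_ne (hρ.ne hj), update_of_ne hj, hT]
  | pop k S =>
    intro T hT
    refine ⟨_, .pop (ρ k) T, fun j => ?_, fun k' hk' => update_of_ne (hk' k).symm _ _⟩
    by_cases hj : j = k
    · subst hj; simp [hT]
    · rw [update_of_ne (hρ.ne hj), update_of_ne hj, hT]
  | seq _ _ ih1 ih2 =>
    intro T hT
    obtain ⟨T1, e1, h1, g1⟩ := ih1 T hT
    obtain ⟨T2, e2, h2, g2⟩ := ih2 T1 h1
    exact ⟨T2, .seq e1 e2, h2, fun k' hk' => (g2 k' hk').trans (g1 k' hk')⟩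
  | iteT hp _ ih =>
    intro T hT
    obtain ⟨T1, e1, h1, g1⟩ := ih T hT
    exact ⟨T1, .iteT (by rw [hT]; exact hp) e1, h1, g1⟩
  | iteF hp _ ih =>
    intro T hT
    obtain ⟨T1, e1, h1, g1⟩ := ih T hT
    exact ⟨T1, .iteF (by rw [hT]; exact hp) e1, h1, g1⟩
  | loopF hp =>
    intro T hT
    exact ⟨T, .loopF (by rw [hT]; exact hp), hT, fun _ _ => rfl⟩
  | loopT hp _ _ ih1 ih2 =>
    intro T hT
    obtain ⟨T1, e1, h1, g1⟩ := ih1 T hT
    obtain ⟨T2, e2, h2, g2⟩ := ih2 T1 h1
    exact ⟨T2, .loopT (by rw [hT]; exact hp) e1 e2, h2,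
      fun k' hk' => (g2 k' hk').trans (g1 k' hk')⟩
  | mono _ hle ih =>
    intro T hT
    obtain ⟨T1, e1, h1, g1⟩ := ih T hT
    exact ⟨T1, e1.mono hle, h1, g1⟩

end basic

/-- The store holding `x` in the register `none` and nothing elsewhere. -/
def io {T : Type} (x : List Bool) : Store (Option T)
  | none => x
  | some _ => []

@[simp] theorem io_none {T : Type} (x : List Bool) : (io x : Store (Option T)) none = x := rfl
@[simp] theorem io_some {T : Type} (x : List Bool) (a : T) :
    (io x : Store (Option T)) (some a) = [] := rfl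

theorem Exec.embed {T K' : Type} [DecidableEq T] [DecidableEq K'] {ρ : Option T → K'}
    (hρ : Injective ρ) {c : Cmd (Option T)} {x y : List Bool} {t : ℕ}
    (h : Exec c (io x) (io y) t) (S : Store K') (h0 : S (ρ none) = x)
    (h1 : ∀ a, S (ρ (some a)) = []) : Exec (c.map ρ) S (update S (ρ none) y) t := by
  obtain ⟨T', e, g1, g2⟩ := h.map hρ S (by rintro (_ | a) <;> simp [h0, h1])
  refine e.cast rfl ?_ le_rfl
  funext k'
  by_cases hk : ∃ k, ρ k = k'
  · obtain ⟨k, rfl⟩ := hk
    rw [g1]
    cases k with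
    | none => simp
    | some a => rw [update_of_ne (hρ.ne (by simp)), h1]; rfl
  · push Not at hk
    rw [g2 k' hk, update_of_ne (hk none).symm]

/-! ### Compilation -/

section compile

variable {K : Type}

def Lab : Cmd K → Type
  | .skip => Empty
  | .push _ _ => Empty
  | .pop _ => Empty
  | .seq c d => Lab c ⊕ Lab d
  | .ite _ _ c d => Lab c ⊕ Lab d
  | .loop _ _ c => Option (Lab c)

@[instance_reducible]
def labFintype : (c : Cmd K) → Fintype (Lab c)
  | .skip => inferInstanceAs (Fintype Empty)
  | .push _ _ => inferInstanceAs (Fintype Empty)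
  | .pop _ => inferInstanceAs (Fintype Empty)
  | .seq c d => @instFintypeSum _ _ (labFintype c) (labFintype d)
  | .ite _ _ c d => @instFintypeSum _ _ (labFintype c) (labFintype d)
  | .loop _ _ c => @instFintypeOption _ (labFintype c)

abbrev St (K Λ : Type) := TM2.Stmt (fun _ : K => Bool) Λ Bool

variable {Λ : Type}

def entry : (c : Cmd K) → (Lab c → Λ) → St K Λ → St K Λ
  | .skip, _, q => q
  | .push k b, _, q => .push k (fun _ => b) q
  | .pop k, _, q => .pop k (fun v _ => v) q
  | .seq c d, e, q => entry c (fun l => e (.inl l)) (entry d (fun l => e (.inr l)) q)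
  | .ite k p c d, e, q => .peek k (fun _ x => p x)
      (.branch id (entry c (fun l => e (.inl l)) q) (entry d (fun l => e (.inr l)) q))
  | .loop _ _ _, e, _ => .goto (fun _ => e none)

def code : (c : Cmd K) → (Lab c → Λ) → St K Λ → Lab c → St K Λ
  | .skip, _, q, _ => q
  | .push _ _, _, q, _ => q
  | .pop _, _, q, _ => q
  | .seq c d, e, q, .inl l => code c (fun l => e (.inl l)) (entry d (fun l => e (.inr l)) q) l
  | .seq _ d, e, q, .inr l => code d (fun l => e (.inr l)) q l
  | .ite _ _ c _, e, q, .inl l => code c (fun l => e (.inl l)) q l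
  | .ite _ _ _ d, e, q, .inr l => code d (fun l => e (.inr l)) q l
  | .loop k p c, e, q, none => .peek k (fun _ x => p x)
      (.branch id (entry c (fun l => e (some l)) (.goto (fun _ => e none))) q)
  | .loop _ _ c, e, _, some l => code c (fun l => e (some l)) (.goto (fun _ => e none)) l

variable [DecidableEq K]

def Steps (M : Λ → St K Λ) (n : ℕ) (a b : TM2.Cfg (fun _ : K => Bool) Λ Bool) : Prop :=
  (flip bind (TM2.step M))^[n] (some a) = some b

theorem Steps.refl (M : Λ → St K Λ) (a) : Steps M 0 a a := rfl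

theorem Steps.trans {M : Λ → St K Λ} {n m : ℕ} {a b c} (h1 : Steps M n a b)
    (h2 : Steps M m b c) : Steps M (n + m) a c := by
  unfold Steps at *
  rw [Nat.add_comm, iterate_add_apply, h1, h2]

theorem Steps.one (M : Λ → St K Λ) (l : Λ) (v : Bool) (S : Store K) :
    Steps M 1 ⟨some l, v, S⟩ (TM2.stepAux (M l) v S) := rfl

theorem Exec.steps (M : Λ → St K Λ) {c : Cmd K} {S S' : Store K} {t : ℕ} (h : Exec c S S' t) :
    ∀ (e : Lab c → Λ) (q : St K Λ), (∀ l, M (e l) = code c e q l) → ∀ v : Bool,
      ∃ (v' : Bool) (n : ℕ), n ≤ t ∧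
        Steps M n (TM2.stepAux (entry c e q) v S) (TM2.stepAux q v' S') := by
  induction h with
  | skip S => exact fun e q _ v => ⟨v, 0, le_rfl, Steps.refl _ _⟩
  | push k b S => exact fun e q _ v => ⟨v, 0, by omega, Steps.refl _ _⟩
  | pop k S => exact fun e q _ v => ⟨v, 0, by omega, Steps.refl _ _⟩
  | seq _ _ ih1 ih2 =>
    intro e q hM v
    obtain ⟨v1, n1, l1, s1⟩ := ih1 (fun l => e (.inl l)) _ (fun l => hM (.inl l)) v
    obtain ⟨v2, n2, l2, s2⟩ := ih2 (fun l => e (.inr l)) q (fun l => hM (.inr l)) v1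
    exact ⟨v2, n1 + n2, by omega, s1.trans s2⟩
  | iteT hp _ ih =>
    intro e q hM v
    obtain ⟨v1, n1, l1, s1⟩ := ih (fun l => e (.inl l)) q (fun l => hM (.inl l)) true
    refine ⟨v1, n1, l1, ?_⟩
    simpa [entry, hp] using s1
  | iteF hp _ ih =>
    intro e q hM v
    obtain ⟨v1, n1, l1, s1⟩ := ih (fun l => e (.inr l)) q (fun l => hM (.inr l)) false
    refine ⟨v1, n1, l1, ?_⟩
    simpa [entry, hp] using s1
  | @loopF k p c S hp =>
    intro e q hM v
    refine ⟨false, 1, le_rfl, ?_⟩
    have := Steps.one M (e none) v S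
    rw [hM none] at this
    simpa [entry, code, hp] using this
  | @loopT k p c S S' S'' t u hp _ _ ih1 ih2 =>
    intro e q hM v
    obtain ⟨v1, n1, l1, s1⟩ :=
      ih1 (fun l => e (some l)) (.goto (fun _ => e none)) (fun l => hM (some l)) true
    obtain ⟨v2, n2, l2, s2⟩ := ih2 e q hM v1
    refine ⟨v2, 1 + n1 + n2, by omega, ?_⟩
    have h0 := Steps.one M (e none) v S
    rw [hM none] at h0
    have h0' : Steps M 1 (TM2.stepAux (entry (.loop k p c) e q) v S)
        (TM2.stepAux (entry c (fun l => e (some l)) (.goto (fun _ => e none))) true S) := by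
      simpa [entry, code, hp] using h0
    exact (h0'.trans s1).trans s2
  | mono _ hle ih =>
    intro e q hM v
    obtain ⟨v1, n1, l1, s1⟩ := ih e q hM v
    exact ⟨v1, n1, by omega, s1⟩

end compile

/-- The machine of a program whose input and output register is `none`. -/
def machine {T : Type} [Fintype T] [DecidableEq T] (c : Cmd (Option T)) : FinTM2 where
  K := Option T
  k₀ := none
  k₁ := none
  Γ _ := Bool
  Λ := Option (Lab c)
  main := none
  ΛFin := @instFintypeOption _ (labFintype c)
  σ := Bool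
  initialState := false
  m
    | none => entry c some (.load (fun _ => false) .halt)
    | some l => code c some (.load (fun _ => false) .halt) l

theorem machine_outputs {T : Type} [Fintype T] [DecidableEq T] {c : Cmd (Option T)}
    {x y : List Bool} {t : ℕ} (h : Exec c (io x) (io y) t) :
    Nonempty (TM2OutputsInTime (machine c) x (some y) (t + 1)) := by
  obtain ⟨v, n, hn, hs⟩ := h.steps (machine c).m some (.load (fun _ => false) .halt)
    (fun _ => rfl) false
  have h1 := (Steps.one (machine c).m none false (io x)).trans hs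
  have e1 : initList (machine c) x = ⟨some none, false, io x⟩ := by
    unfold initList
    congr 1
    funext k
    cases k <;> rfl
  have e2 : haltList (machine c) y = ⟨none, false, io y⟩ := by
    unfold haltList
    congr 1
    funext k
    cases k <;> rfl
  refine ⟨⟨⟨1 + n, ?_⟩, by show 1 + n ≤ t + 1; omega⟩⟩
  show (flip bind (machine c).step)^[1 + n] (some (initList (machine c) x)) =
    some (haltList (machine c) y)
  rw [e1, e2]
  exact h1

end Pool.Agent.Lib.helper80
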