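import Pool.Agent.Lib.helper80.Progs

/-! `Comp x y` says that the bit string `y a` is computed from the bit string `x a` by one program
in time polynomial in the length of `x a`. -/

namespace Pool.Agent.Lib.helper80

open Function Polynomial Turing

theorem eval_mono (p : ℕ[X]) {a b : ℕ} (h : a ≤ b) : p.eval a ≤ p.eval b := by
  rw [eval_eq_sum_range, eval_eq_sum_range]
  exact Finset.sum_le_sum fun i _ => by gcongr

def Comp {α : Type} (x y : α → List Bool) : Prop :=
  ∃ (T : Type) (_ : Fintype T) (_ : DecidableEq T) (c : Cmd (Option T)) (p : ℕ[X]),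
    ∀ a, Exec c (io (x a)) (io (y a)) (p.eval (x a).length)

theorem update_io {T : Type} [DecidableEq T] (x y : List Bool) :
    update (io x : Store (Option T)) none y = io y := by
  funext k; cases k <;> simp

namespace Comp

variable {α β : Type} {x y z : α → List Bool}

theorem toTM2 {γ : Type} {eb : γ → List Bool} {f : α → γ} (h : Comp x (fun a => eb (f a))) :
    Nonempty (TM2ComputableInPolyTime x eb f) := by
  obtain ⟨T, _, _, c, p, h⟩ := h
  refine ⟨⟨⟨machine c, Equiv.refl _, Equiv.refl _⟩, p + 1, fun a => ?_⟩⟩
  have e : ∀ l : List Bool, l = List.map (Equiv.refl Bool).invFun l := fun l => (List.map_id l).symm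
  have := (machine_outputs ((h a).cast (congrArg io (e _)) (congrArg io (e _)) le_rfl)).some
  simp only [eval_add, eval_one]
  exact this

theorem length_le (h : Comp x y) : ∃ p : ℕ[X], ∀ a, (y a).length ≤ p.eval (x a).length := by
  obtain ⟨T, _, _, c, p, h⟩ := h
  exact ⟨X + p, fun a => by simpa using (h a).length_le none⟩

theorem reindex (h : Comp x y) (φ : β → α) : Comp (fun b => x (φ b)) (fun b => y (φ b)) := by
  obtain ⟨T, _, _, c, p, h⟩ := h
  exact ⟨T, inferInstance, inferInstance, c, p, fun b => h (φ b)⟩

theorem of_eq (h : Comp x y) {x' y' : β → List Bool} (φ : β → α) (hx : ∀ b, x' b = x (φ b))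
    (hy : ∀ b, y' b = y (φ b)) : Comp x' y' := by
  rw [funext hx, funext hy]; exact h.reindex φ

theorem congr (h : Comp x y) (hy : ∀ a, y a = z a) : Comp x z := by
  rw [← funext hy]; exact h

theorem refl (x : α → List Bool) : Comp x x :=
  ⟨Empty, inferInstance, inferInstance, .skip, 0, fun _ => (Exec.skip _).mono (by simp)⟩

theorem trans (h1 : Comp x y) (h2 : Comp y z) : Comp x z := by
  obtain ⟨q, hq⟩ := h1.length_le
  obtain ⟨T1, _, _, c1, p1, h1⟩ := h1
  obtain ⟨T2, _, _, c2, p2, h2⟩ := h2
  refine ⟨T1 ⊕ T2, inferInstance, inferInstance,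
    .seq (c1.map (Option.map .inl)) (c2.map (Option.map .inr)), p1 + p2.comp q, fun a => ?_⟩
  have e1 := (h1 a).embed (Option.map_injective (Sum.inl_injective (β := T2))) (io (x a)) rfl
    (fun _ => rfl)
  have e2 := (h2 a).embed (Option.map_injective (Sum.inr_injective (α := T1))) (io (y a)) rfl
    (fun _ => rfl)
  simp only [Option.map_none, update_io] at e1 e2
  refine (e1.seq e2).mono ?_
  have := eval_mono p2 (hq a)
  simp only [eval_add, eval_comp]; omega

theorem consBit (x : α → List Bool) (b : Bool) : Comp x (fun a => b :: x a) :=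
  ⟨Empty, inferInstance, inferInstance, .push none b, 1, fun _ =>
    (Exec.push none b _).cast rfl (by simp [update_io]) (by simp)⟩

theorem tail (x : α → List Bool) : Comp x (fun a => (x a).tail) :=
  ⟨Empty, inferInstance, inferInstance, .pop none, 1, fun _ =>
    (Exec.pop none _).cast rfl (by simp [update_io]) (by simp)⟩

theorem const (x : α → List Bool) (w : List Bool) : Comp x (fun _ => w) :=
  ⟨Empty, inferInstance, inferInstance, .seq (clear none) (pushW none w),
    X * 2 + 1 + C w.length, fun _ =>
    (Exec.seq (exec_clear none _) (exec_pushW none w _)).cast rfl (by simp [update_io]) (by simp)⟩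

theorem headTest (x : α → List Bool) (p : Option Bool → Bool) :
    Comp x (fun a => [p (x a).head?]) := by
  refine ⟨Empty, inferInstance, inferInstance,
    .ite none p (.seq (clear none) (.push none true)) (.seq (clear none) (.push none false)),
    X * 2 + 2, fun a => ?_⟩
  cases hp : p (x a).head? with
  | true =>
    exact .iteT hp ((Exec.seq (exec_clear none _) (.push none true _)).cast rfl
      (by simp [update_io, hp]) (by simp))
  | false =>
    exact .iteF hp ((Exec.seq (exec_clear none _) (.push none false _)).cast rfl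
      (by simp [update_io, hp]) (by simp))

/-- Replace each bit `b` by the word `w b`. -/
theorem flatMapBits (x : α → List Bool) (w : Bool → List Bool) :
    Comp x (fun a => (x a).flatMap w) := by
  refine ⟨Unit, inferInstance, inferInstance,
    .seq (move none (some ())) (trans1 (some ()) none w),
    X * 3 + 1 + (X * C ((w true).length + (w false).length + 2) + 1), fun a => ?_⟩
  refine (Exec.seq (exec_move (by simp) _) (exec_trans1 (by simp) w
    ((w true).length + (w false).length) (by rintro (_ | _) <;> simp) _)).cast rfl ?_ ?_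
  · funext k; rcases k with _ | _ <;> simp
  · simp

theorem size (x : α → List Bool) : Comp x (fun a => List.replicate (x a).length true) :=
  (flatMapBits x (fun _ => [true])).congr fun a => by
    induction x a with
    | nil => rfl
    | cons b l ih => simp [List.replicate_succ, ih]

theorem reverse (x : α → List Bool) : Comp x (fun a => (x a).reverse) := by
  refine ⟨Bool, inferInstance, inferInstance,
    .seq (.seq (move none (some true)) (move (some true) (some false))) (move (some false) none),
    X * 9 + 3, fun a => ?_⟩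
  refine (Exec.seq (Exec.seq (exec_move (by simp) _) (exec_move (by simp) _))
    (exec_move (by simp) _)).cast rfl ?_ ?_
  · funext k; rcases k with _ | _ | _ <;> simp
  · simp; omega

theorem delim_eq (u : List Bool) : delim u = u.flatMap (fun b => [true, b]) ++ [false] := by
  induction u with
  | nil => rfl
  | cons b u ih => simp [delim, ih]

theorem pair (h1 : Comp x y) (h2 : Comp x z) : Comp x (fun a => delim (y a) ++ z a) := by
  obtain ⟨q, hq⟩ := h1.length_le
  obtain ⟨T1, _, _, c1, p1, h1⟩ := h1
  obtain ⟨T2, _, _, c2, p2, h2⟩ := h2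
  let ρ1 : Option T1 → Option (Bool ⊕ T1 ⊕ T2) := fun k => match k with
    | none => some (.inl true)
    | some k => some (.inr (.inl k))
  let ρ2 : Option T2 → Option (Bool ⊕ T1 ⊕ T2) := Option.map fun k => .inr (.inr k)
  have i1 : Injective ρ1 := by rintro (_ | _) (_ | _) <;> simp [ρ1]
  have i2 : Injective ρ2 := by rintro (_ | _) (_ | _) <;> simp [ρ2]
  refine ⟨Bool ⊕ T1 ⊕ T2, inferInstance, inferInstance,
    .seq (.seq (.seq (.seq (.seq (copy none (some (.inl true)) (some (.inl false))) (c2.map ρ2))
      (c1.map ρ1)) (move (some (.inl true)) (some (.inl false)))) (.push none false))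
      (trans1 (some (.inl false)) none (fun b => [true, b])),
    X * 7 + 2 + p2 + p1 + (q * 3 + 1) + 1 + (q * 4 + 1), fun a => ?_⟩
  have e0 := exec_copy (K := Option (Bool ⊕ T1 ⊕ T2)) (a := none) (r := some (.inl true))
    (t := some (.inl false)) (by simp) (by simp) (by simp) (io (x a)) rfl
  have e2 := (h2 a).embed i2 (update (io (x a)) (some (.inl true)) (x a ++ [])) (by simp [ρ2])
    (by simp [ρ2])
  have e1 := (h1 a).embed i1 (update (update (io (x a)) (some (.inl true)) (x a ++ []))
    (ρ2 none) (z a)) (by simp [ρ1, ρ2]) (by simp [ρ1, ρ2])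
  refine (Exec.seq (Exec.seq (Exec.seq (Exec.seq (Exec.seq e0 e2) e1) (exec_move (by simp) _))
    (.push none false _)) (exec_trans1 (by simp) _ 2 (by simp) _)).cast rfl ?_ ?_
  · funext k; rcases k with _ | (_ | _) | _ | _ <;> simp [ρ1, ρ2, delim_eq]
  · have := hq a
    simp [ρ1, ρ2]; omega

theorem fst (y z : α → List Bool) : Comp (fun a => delim (y a) ++ z a) y := by
  refine ⟨Unit, inferInstance, inferInstance,
    .seq (.seq (parse none (some ())) (clear none)) (move (some ()) none),
    X * 9 + 4, fun a => ?_⟩
  refine (Exec.seq (Exec.seq (exec_parse (K := Option Unit) (a := none) (r := some ()) (by simp)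
    (z a) (y a) (io _) rfl) (exec_clear none _))
    (exec_move (a := some ()) (r := none) (by simp) _)).cast rfl ?_ ?_
  · funext k; rcases k with _ | _ <;> simp
  · simp; omega

theorem snd (y z : α → List Bool) : Comp (fun a => delim (y a) ++ z a) z := by
  refine ⟨Unit, inferInstance, inferInstance,
    .seq (parse none (some ())) (clear (some ())), X * 9 + 4, fun a => ?_⟩
  refine (Exec.seq (exec_parse (K := Option Unit) (a := none) (r := some ()) (by simp)
    (z a) (y a) (io _) rfl) (exec_clear (some ()) _)).cast rfl ?_ ?_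
  · funext k; rcases k with _ | _ <;> simp
  · simp; omega

/-- Concatenation of the two halves of a pair. -/
theorem app (y z : α → List Bool) : Comp (fun a => delim (y a) ++ z a) (fun a => y a ++ z a) := by
  refine ⟨Unit, inferInstance, inferInstance,
    .seq (parse none (some ())) (move (some ()) none), X * 9 + 4, fun a => ?_⟩
  refine (Exec.seq (exec_parse (K := Option Unit) (a := none) (r := some ()) (by simp)
    (z a) (y a) (io _) rfl) (exec_move (a := some ()) (r := none) (by simp) _)).cast rfl ?_ ?_
  · funext k; rcases k with _ | _ <;> simp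
  · simp; omega

theorem cond' {b : α → Bool} (hb : Comp x (fun a => [b a]))
    (h1 : Comp (fun a : {a // b a = true} => x a) (fun a => y a))
    (h2 : Comp (fun a : {a // b a = false} => x a) (fun a => z a)) :
    Comp x (fun a => bif b a then y a else z a) := by
  obtain ⟨T0, _, _, c0, p0, h0⟩ := hb
  obtain ⟨T1, _, _, c1, p1, h1⟩ := h1
  obtain ⟨T2, _, _, c2, p2, h2⟩ := h2
  let ρ0 : Option T0 → Option (Bool ⊕ T0 ⊕ T1 ⊕ T2) := fun k => match k with
    | none => some (.inl true)
    | some k => some (.inr (.inl k))
  let ρ1 : Option T1 → Option (Bool ⊕ T0 ⊕ T1 ⊕ T2) := Option.map fun k => .inr (.inr (.inl k))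
  let ρ2 : Option T2 → Option (Bool ⊕ T0 ⊕ T1 ⊕ T2) := Option.map fun k => .inr (.inr (.inr k))
  have i0 : Injective ρ0 := by rintro (_ | _) (_ | _) <;> simp [ρ0]
  have i1 : Injective ρ1 := by rintro (_ | _) (_ | _) <;> simp [ρ1]
  have i2 : Injective ρ2 := by rintro (_ | _) (_ | _) <;> simp [ρ2]
  refine ⟨Bool ⊕ T0 ⊕ T1 ⊕ T2, inferInstance, inferInstance,
    .seq (.seq (copy none (some (.inl true)) (some (.inl false))) (c0.map ρ0))
      (.ite (some (.inl true)) isT (.seq (.pop (some (.inl true))) (c1.map ρ1))
        (.seq (.pop (some (.inl true))) (c2.map ρ2))),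
    X * 7 + 2 + p0 + (1 + p1 + p2), fun a => ?_⟩
  have e0 := exec_copy (K := Option (Bool ⊕ T0 ⊕ T1 ⊕ T2)) (a := none) (r := some (.inl true))
    (t := some (.inl false)) (by simp) (by simp) (by simp) (io (x a)) rfl
  have e1 := (h0 a).embed i0 (update (io (x a)) (some (.inl true)) (x a ++ [])) (by simp [ρ0])
    (by simp [ρ0])
  have hS : update (update (update (io (x a)) (some (.inl true)) (x a ++ [])) (ρ0 none) [b a])
      (some (.inl true)) ((update (update (io (x a)) (some (.inl true)) (x a ++ [])) (ρ0 none)
        [b a]) (some (.inl true))).tail = (io (x a) : Store (Option (Bool ⊕ T0 ⊕ T1 ⊕ T2))) := by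
    funext k; rcases k with _ | (_ | _) | _ | _ | _ <;> simp [ρ0]
  refine (Exec.seq (u := 1 + p1.eval (x a).length + p2.eval (x a).length) (Exec.seq e0 e1)
    ?_).cast rfl rfl (by simp)
  cases hb : b a with
  | true =>
    refine .iteT (by simp [ρ0, isT, hb]) ((Exec.seq (u := p1.eval (x a).length) (.pop _ _)
      ?_).mono (by omega))
    rw [hS]
    have := (h1 ⟨a, hb⟩).embed i1 (io (x a)) rfl (fun _ => rfl)
    simpa [ρ1, update_io, hb] using this
  | false =>
    refine .iteF (by simp [ρ0, isT, hb]) ((Exec.seq (u := p2.eval (x a).length) (.pop _ _)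
      ?_).mono (by omega))
    rw [hS]
    have := (h2 ⟨a, hb⟩).embed i2 (io (x a)) rfl (fun _ => rfl)
    simpa [ρ2, update_io, hb] using this

theorem iterate {σ : Type} {e : σ → List Bool} {step : σ → σ}
    (hstep : Comp e (fun s => e (step s))) {n : α → ℕ} {s : α → σ}
    (h0 : Comp x (fun a => delim (List.replicate (n a) true) ++ e (s a))) (q : ℕ[X])
    (hq : ∀ a i, i ≤ n a → (e (step^[i] (s a))).length ≤ q.eval (x a).length) :
    Comp x (fun a => e (step^[n a] (s a))) := by
  obtain ⟨r, hr⟩ := h0.length_le
  obtain ⟨T0, _, _, c0, p0, h0⟩ := h0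
  obtain ⟨T1, _, _, c1, p1, h1⟩ := hstep
  let ρ0 : Option T0 → Option (Unit ⊕ T0 ⊕ T1) := Option.map fun k => .inr (.inl k)
  let ρ1 : Option T1 → Option (Unit ⊕ T0 ⊕ T1) := Option.map fun k => .inr (.inr k)
  have i0 : Injective ρ0 := by rintro (_ | _) (_ | _) <;> simp [ρ0]
  have i1 : Injective ρ1 := by rintro (_ | _) (_ | _) <;> simp [ρ1]
  have key : ∀ (B m : ℕ) (s' : σ), (∀ i, i ≤ m → (e (step^[i] s')).length ≤ B) →
      Exec (.loop (some (.inl ())) Option.isSome (.seq (.pop (some (.inl ()))) (c1.map ρ1)))
        (update (io (e s')) (some (.inl ())) (List.replicate m true))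
        (io (e (step^[m] s'))) (m * (p1.eval B + 2) + 1) := by
    intro B m
    induction m with
    | zero =>
      intro s' _
      refine (Exec.loopF (by simp)).cast rfl ?_ (by simp)
      funext k; rcases k with _ | _ | _ | _ <;> simp
    | succ m ih =>
      intro s' hs'
      have e1 := (h1 s').embed i1 (update (io (e s')) (some (.inl ())) (List.replicate m true))
        (by simp [ρ1]) (by simp [ρ1])
      have e2 := ih (step s') (fun i hi => hs' (i + 1) (by omega))
      have e0 : Exec (.pop (some (.inl ())))
          (update (io (e s') : Store (Option (Unit ⊕ T0 ⊕ T1))) (some (.inl ()))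
            (List.replicate (m + 1) true))
          (update (io (e s')) (some (.inl ())) (List.replicate m true)) 1 :=
        (Exec.pop _ _).cast rfl (by simp [List.replicate_succ]) le_rfl
      refine (Exec.loopT (by simp [List.replicate_succ]) (e0.seq e1) (e2.cast ?_ rfl le_rfl)).mono ?_
      · funext k; rcases k with _ | _ | _ | _ <;> simp [ρ1]
      · have := eval_mono p1 (hs' 0 (by omega))
        simp only [iterate_zero, id] at this
        nlinarith
  refine ⟨Unit ⊕ T0 ⊕ T1, inferInstance, inferInstance,
    .seq (.seq (c0.map ρ0) (parse none (some (.inl ()))))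
      (.loop (some (.inl ())) Option.isSome (.seq (.pop (some (.inl ()))) (c1.map ρ1))),
    p0 + (r * 4 + 2) + (r * (p1.comp q + 2) + 1), fun a => ?_⟩
  have e0 := (h0 a).embed i0 (io (x a)) rfl (fun _ => rfl)
  have e1 := exec_parse (K := Option (Unit ⊕ T0 ⊕ T1)) (a := none) (r := some (.inl ())) (by simp)
    (e (s a)) (List.replicate (n a) true) (update (io (x a)) (ρ0 none)
      (delim (List.replicate (n a) true) ++ e (s a))) (by simp [ρ0])
  have e2 := key _ (n a) (s a) (hq a)
  refine ((e0.seq e1).seq (e2.cast ?_ rfl le_rfl)).mono ?_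
  · funext k; rcases k with _ | _ | _ | _ <;> simp [ρ0]
  · have h := hr a
    simp only [List.length_append, length_delim, List.length_replicate] at h
    have h' : n a ≤ r.eval (x a).length := by omega
    simp only [eval_add, eval_mul, eval_comp, eval_ofNat, eval_one, List.length_replicate]
    gcongr

end Comp

end Pool.Agent.Lib.helper80
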