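import Pool.Agent.Lib.helper80.Cmd

/-! Basic register programs. -/

namespace Pool.Agent.Lib.helper80

open Function

/-- Self-delimiting code of a bit string. -/
def delim : List Bool → List Bool
  | [] => [false]
  | b :: l => true :: b :: delim l

@[simp] theorem length_delim (l : List Bool) : (delim l).length = 2 * l.length + 1 := by
  induction l with
  | nil => rfl
  | cons b l ih => simp [delim, ih]; omega

variable {K : Type} [DecidableEq K]

def isT (x : Option Bool) : Bool := x == some true

def forEach (a : K) (ct cf : Cmd K) : Cmd K :=
  .loop a Option.isSome (.ite a isT (.seq (.pop a) ct) (.seq (.pop a) cf))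

theorem foldl_update (a : K) (F : Bool → Store K → Store K)
    (hF : ∀ b S l, F b (update S a l) = update (F b S) a l) (w : List Bool) :
    ∀ (l : List Bool) (S : Store K), l.foldl (fun S b => F b S) (update S a w) =
      update (l.foldl (fun S b => F b S) S) a w := by
  intro l
  induction l with
  | nil => intro S; rfl
  | cons b l ih => intro S; simp only [List.foldl_cons, hF, ih]

theorem exec_forEach (a : K) (ct cf : Cmd K) (F : Bool → Store K → Store K) (t : ℕ)
    (ht : ∀ S, Exec ct S (F true S) t) (hf : ∀ S, Exec cf S (F false S) t)
    (hF : ∀ b S l, F b (update S a l) = update (F b S) a l) :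
    ∀ (l : List Bool) (S : Store K), S a = l →
      Exec (forEach a ct cf) S (update (l.foldl (fun S b => F b S) S) a [])
        (l.length * (t + 2) + 1) := by
  intro l
  induction l with
  | nil =>
    intro S hS
    refine (Exec.loopF (by simp [hS])).cast rfl ?_ (by simp)
    rw [List.foldl_nil, ← hS, update_eq_self]
  | cons b l ih =>
    intro S hS
    have h2 := ih (update (F b S) a l) (by simp)
    rw [foldl_update a F hF, update_idem] at h2
    have h1 : Exec (.ite a isT (.seq (.pop a) ct) (.seq (.pop a) cf)) S
        (update (F b S) a l) (1 + t) := by
      cases b with
      | true =>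
        refine .iteT (by simp [hS, isT]) (.seq (.pop a S) ?_)
        have := ht (update S a (S a).tail)
        rw [hF] at this
        simpa [hS] using this
      | false =>
        refine .iteF (by simp [hS, isT]) (.seq (.pop a S) ?_)
        have := hf (update S a (S a).tail)
        rw [hF] at this
        simpa [hS] using this
    refine (Exec.loopT (by simp [hS]) h1 h2).cast rfl rfl ?_
    simp only [List.length_cons]
    nlinarith

/-- Push the word `w b` (last bit first) on register `r`. -/
def pushW (r : K) : List Bool → Cmd K
  | [] => .skip
  | b :: w => .seq (pushW r w) (.push r b)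

theorem exec_pushW (r : K) (w : List Bool) (S : Store K) :
    Exec (pushW r w) S (update S r (w ++ S r)) w.length := by
  induction w with
  | nil => exact (Exec.skip S).cast rfl (by simp) le_rfl
  | cons b w ih => exact (Exec.seq ih (.push r b _)).cast rfl (by simp) (by simp)

/-- Empty register `a`; for each of its bits `b` put the word `w b` in front of register `r`. -/
def trans1 (a r : K) (w : Bool → List Bool) : Cmd K := forEach a (pushW r (w true)) (pushW r (w false))

theorem exec_trans1 {a r : K} (har : a ≠ r) (w : Bool → List Bool) (m : ℕ)
    (hw : ∀ b, (w b).length ≤ m) (S : Store K) :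
    Exec (trans1 a r w) S (update (update S r ((S a).reverse.flatMap w ++ S r)) a [])
      ((S a).length * (m + 2) + 1) := by
  have h := exec_forEach a (pushW r (w true)) (pushW r (w false))
    (fun b S => update S r (w b ++ S r)) m
    (fun S => (exec_pushW r _ S).mono (hw _)) (fun S => (exec_pushW r _ S).mono (hw _))
    (fun b S l => by rw [update_of_ne har.symm, update_comm har]) (S a) S rfl
  have e : ∀ (l : List Bool) (S : Store K),
      l.foldl (fun S b => update S r (w b ++ S r)) S = update S r (l.reverse.flatMap w ++ S r) := by
    intro l
    induction l with
    | nil => intro S; simp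
    | cons b l ih => intro S; simp [ih]
  rw [e] at h
  exact h

def move (a r : K) : Cmd K := trans1 a r (fun b => [b])

theorem exec_move {a r : K} (har : a ≠ r) (S : Store K) :
    Exec (move a r) S (update (update S r ((S a).reverse ++ S r)) a []) ((S a).length * 3 + 1) := by
  have h := exec_trans1 har (fun b => [b]) 1 (by simp) S
  simpa [move] using h

def clear (a : K) : Cmd K := forEach a .skip .skip

theorem exec_clear (a : K) (S : Store K) :
    Exec (clear a) S (update S a []) ((S a).length * 2 + 1) := by
  have h := exec_forEach a .skip .skip (fun _ S => S) 0 (fun S => .skip S) (fun S => .skip S)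
    (fun _ _ _ => rfl) (S a) S rfl
  simpa [clear] using h

def move2 (a r s : K) : Cmd K :=
  forEach a (.seq (.push r true) (.push s true)) (.seq (.push r false) (.push s false))

theorem exec_move2 {a r s : K} (har : a ≠ r) (has : a ≠ s) (hrs : r ≠ s) (S : Store K) :
    Exec (move2 a r s) S
      (update (update (update S r ((S a).reverse ++ S r)) s ((S a).reverse ++ S s)) a [])
      ((S a).length * 4 + 1) := by
  have hb : ∀ b S, Exec (.seq (.push r b) (.push s b)) S
      (update (update S r (b :: S r)) s (b :: S s)) 2 := fun b S =>
    (Exec.seq (.push r b S) (.push s b _)).cast rfl (by rw [update_of_ne hrs.symm]) le_rfl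
  have h := exec_forEach a _ _
    (fun b S => update (update S r (b :: S r)) s (b :: S s)) 2 (hb true) (hb false)
    (fun b S l => by
      rw [update_of_ne har.symm, update_of_ne has.symm, update_comm har, update_comm has])
    (S a) S rfl
  have e : ∀ (l : List Bool) (S : Store K),
      l.foldl (fun S b => update (update S r (b :: S r)) s (b :: S s)) S =
        update (update S r (l.reverse ++ S r)) s (l.reverse ++ S s) := by
    intro l
    induction l with
    | nil => intro S; simp
    | cons b l ih =>
      intro S
      simp only [List.foldl_cons, ih, List.reverse_cons, List.append_assoc, List.singleton_append,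
        update_self]
      rw [update_of_ne hrs, update_self, update_comm hrs.symm, update_idem, update_idem]
  rw [e] at h
  exact h

/-- Copy register `a` in front of register `r`, using the empty register `t`. -/
def copy (a r t : K) : Cmd K := .seq (move a t) (move2 t a r)

theorem exec_copy {a r t : K} (har : a ≠ r) (hat : a ≠ t) (hrt : r ≠ t) (S : Store K)
    (ht : S t = []) :
    Exec (copy a r t) S (update S r (S a ++ S r)) ((S a).length * 7 + 2) := by
  refine (Exec.seq (exec_move hat S) (exec_move2 hat.symm hrt.symm har _)).cast rfl ?_ ?_
  · funext k
    by_cases h1 : k = t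
    · subst h1; simp [hrt.symm, ht]
    by_cases h2 : k = r
    · subst h2; simp [h1, har.symm, hat.symm, ht]
    by_cases h3 : k = a
    · subst h3; simp [h1, h2, ht, Ne.symm h1]
    · simp [h1, h2, h3]
  · simp [hat.symm, ht]; omega

/-- Remove a delimited block from the front of `a`, putting its reverse in front of `r`. -/
def parse (a r : K) : Cmd K :=
  .seq (.loop a isT (.seq (.pop a)
    (.ite a isT (.seq (.pop a) (.push r true)) (.seq (.pop a) (.push r false))))) (.pop a)

theorem exec_parse {a r : K} (har : a ≠ r) (w : List Bool) :
    ∀ (u : List Bool) (S : Store K), S a = delim u ++ w →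
      Exec (parse a r) S (update (update S r (u.reverse ++ S r)) a w) (u.length * 4 + 2) := by
  have key : ∀ (u : List Bool) (S : Store K), S a = delim u ++ w →
      Exec (.loop a isT (.seq (.pop a)
        (.ite a isT (.seq (.pop a) (.push r true)) (.seq (.pop a) (.push r false))))) S
        (update (update S r (u.reverse ++ S r)) a (false :: w)) (u.length * 4 + 1) := by
    intro u
    induction u with
    | nil =>
      intro S hS
      refine (Exec.loopF (by simp [hS, delim, isT])).cast rfl ?_ (by simp)
      simp only [delim] at hS
      simp [← show S a = false :: w from hS]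
    | cons b u ih =>
      intro S hS
      have h2 := ih (update (update S r (b :: S r)) a (delim u ++ w)) (by simp)
      have h1 : Exec (.seq (.pop a)
          (.ite a isT (.seq (.pop a) (.push r true)) (.seq (.pop a) (.push r false)))) S
          (update (update S r (b :: S r)) a (delim u ++ w)) 3 := by
        refine (Exec.seq (u := 2) (.pop a S) ?_).cast rfl rfl le_rfl
        cases b with
        | true =>
          refine .iteT (by simp [hS, delim, isT]) ?_
          refine (Exec.seq (.pop a _) (.push r true _)).cast rfl ?_ le_rfl
          simp [hS, delim, har.symm, update_comm har]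
        | false =>
          refine .iteF (by simp [hS, delim, isT]) ?_
          refine (Exec.seq (.pop a _) (.push r false _)).cast rfl ?_ le_rfl
          simp [hS, delim, har.symm, update_comm har]
      refine (Exec.loopT (by simp [hS, delim, isT]) h1 h2).cast rfl ?_ ?_
      · funext k
        by_cases g1 : k = a
        · subst g1; simp
        by_cases g2 : k = r
        · subst g2; simp [g1]
        · simp [g1, g2]
      · simp only [List.length_cons]; omega
  intro u S hS
  refine (Exec.seq (key u S hS) (.pop a _)).cast rfl ?_ le_rfl
  simp

end Pool.Agent.Lib.helper80
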